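import Mathlib

set_option autoImplicit false

namespace Pool.Agent.H.MP_a9e0e5_al

open Function
open scoped commutatorElement

variable (Ω : Type) [Group Ω] {G : Type} [Group G] [MulDistribMulAction Ω G] {k : ℕ}

def Mv (a b : Fin k → G) : Prop :=
  (∃ i j : Fin k, i ≠ j ∧
    (b = Function.update a i (a i * a j) ∨
     b = Function.update a i (a i * (a j)⁻¹) ∨
     b = Function.update a i (a j * a i) ∨
     b = Function.update a i ((a j)⁻¹ * a i))) ∨
  (∃ i : Fin k, b = Function.update a i (a i)⁻¹) ∨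
  (∃ (i : Fin k) (g : G), b = Function.update a i (g⁻¹ * a i * g)) ∨
  (∃ (i : Fin k) (ω : Ω), b = Function.update a i (ω • a i))

abbrev Eqv (a b : Fin k → G) : Prop := Relation.ReflTransGen (Mv Ω) a b

def Gen (u : Fin k → G) : Prop :=
  ∀ H : Subgroup G, H.Normal → (∀ ω : Ω, ∀ h ∈ H, ω • h ∈ H) → (∀ i, u i ∈ H) → H = ⊤

def Nm (H : Subgroup G) : Prop := H.Normal ∧ ∀ ω : Ω, ∀ h ∈ H, ω • h ∈ H

def cl (g : G) : Subgroup G := sInf {H | Nm Ω H ∧ g ∈ H}

variable {Ω}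

lemma Mv.symm {a b : Fin k → G} (h : Mv Ω a b) : Mv Ω b a := by
  rcases h with ⟨i, j, ij, rfl | rfl | rfl | rfl⟩ | ⟨i, rfl⟩ | ⟨i, g, rfl⟩ | ⟨i, ω, rfl⟩
  · exact .inl ⟨i, j, ij, .inr (.inl (by simp [ij.symm]))⟩
  · exact .inl ⟨i, j, ij, .inl (by simp [ij.symm])⟩
  · exact .inl ⟨i, j, ij, .inr (.inr (.inr (by simp [ij.symm])))⟩
  · exact .inl ⟨i, j, ij, .inr (.inr (.inl (by simp [ij.symm])))⟩
  · exact .inr (.inl ⟨i, by simp⟩)
  · exact .inr (.inr (.inl ⟨i, g⁻¹, by simp [mul_assoc]⟩))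
  · exact .inr (.inr (.inr ⟨i, ω⁻¹, by simp⟩))

lemma Eqv.symm {a b : Fin k → G} (h : Eqv Ω a b) : Eqv Ω b a := by
  induction h with
  | refl => exact .refl
  | tail _ m ih => exact .head m.symm ih

lemma Mv.mem {a b : Fin k → G} (h : Mv Ω a b) {H : Subgroup G} (hH : Nm Ω H)
    (ha : ∀ i, a i ∈ H) : ∀ i, b i ∈ H := by
  have u : ∀ i x, x ∈ H → ∀ l, update a i x l ∈ H := fun i x hx l => by
    by_cases e : l = i
    · simpa [e] using hx
    · simpa [e] using ha l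
  rcases h with ⟨i, j, ij, rfl | rfl | rfl | rfl⟩ | ⟨i, rfl⟩ | ⟨i, g, rfl⟩ | ⟨i, ω, rfl⟩ <;>
    refine u _ _ ?_
  · exact mul_mem (ha i) (ha j)
  · exact mul_mem (ha i) (inv_mem (ha j))
  · exact mul_mem (ha j) (ha i)
  · exact mul_mem (inv_mem (ha j)) (ha i)
  · exact inv_mem (ha i)
  · exact hH.1.conj_mem' _ (ha i) g
  · exact hH.2 _ _ (ha i)

lemma Eqv.gen {a b : Fin k → G} (h : Eqv Ω a b) (ha : Gen Ω a) : Gen Ω b := by
  induction h with
  | refl => exact ha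
  | tail _ m ih => exact fun H n o hb => ih H n o (m.symm.mem ⟨n, o⟩ hb)

lemma cl_le {g : G} {H : Subgroup G} (hH : Nm Ω H) (hg : g ∈ H) : cl Ω g ≤ H := sInf_le ⟨hH, hg⟩

lemma mem_cl (g : G) : g ∈ cl Ω g := Subgroup.mem_sInf.2 fun _ h => h.2

lemma nm_cl (g : G) : Nm Ω (cl Ω g) :=
  ⟨⟨fun _ h x => Subgroup.mem_sInf.2 fun H hH => hH.1.1.conj_mem _ (Subgroup.mem_sInf.1 h H hH) x⟩,
    fun ω _ h => Subgroup.mem_sInf.2 fun H hH => hH.1.2 ω _ (Subgroup.mem_sInf.1 h H hH)⟩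

lemma chg (a : Fin k → G) {i j : Fin k} (ij : i ≠ j) {x : G} (hx : x ∈ cl Ω (a j)) (y : G) :
    Eqv Ω (update a i y) (update a i (y * x)) := by
  let T : Subgroup G :=
    { carrier := {x | ∀ y, Eqv Ω (update a i y) (update a i (y * x))}
      mul_mem' := fun {x z} p q y => (p y).trans (by simpa [mul_assoc] using q (y * x))
      one_mem' := fun y => by simpa using .refl
      inv_mem' := fun {x} p y => Eqv.symm (by simpa using p (y * x⁻¹)) }
  have c : ∀ y g, Eqv Ω (update a i y) (update a i (g⁻¹ * y * g)) := fun y g =>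
    .single (.inr (.inr (.inl ⟨i, g, by simp⟩)))
  have o : ∀ y (ω : Ω), Eqv Ω (update a i y) (update a i (ω • y)) := fun y g =>
    .single (.inr (.inr (.inr ⟨i, g, by simp⟩)))
  refine cl_le (H := T) ⟨⟨fun x p g y => ?_⟩, fun ω x p y => ?_⟩ (fun y => ?_) hx y
  · exact (c y g).trans ((p _).trans (by simpa [mul_assoc] using c (g⁻¹ * y * g * x) g⁻¹))
  · exact (o y ω⁻¹).trans ((p _).trans (by simpa [smul_mul'] using o (ω⁻¹ • y * x) ω))
  · exact .single (.inl ⟨i, j, ij, .inl (by simp [ij.symm])⟩)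

lemma chg' {a : Fin k → G} {i j : Fin k} (ij : i ≠ j) {z : G} (hx : (a i)⁻¹ * z ∈ cl Ω (a j)) :
    Eqv Ω a (update a i z) := by
  simpa using chg a ij hx (a i)

lemma others {a b : Fin k → G} {i : Fin k} (h : ∀ j, (a j)⁻¹ * b j ∈ cl Ω (a i)) :
    Eqv Ω a (update b i (a i)) := by
  have : ∀ s : Finset (Fin k), i ∉ s → Eqv Ω a (s.piecewise b a) := fun s => by
    induction s using Finset.induction_on with
    | empty => exact fun _ => by simpa using .refl
    | insert j s hj ih =>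
      intro hi
      rw [Finset.mem_insert, not_or] at hi
      rw [Finset.piecewise_insert]
      exact (ih hi.2).trans (chg' (Ne.symm hi.1) (by simpa [hj, hi.2] using h j))
  have := this {i}ᶜ (by simp)
  rwa [Finset.piecewise_compl, Finset.piecewise_singleton] at this

section
variable {a b : Fin k → G} {M : Subgroup G} (h : ∀ l, (a l)⁻¹ * b l ∈ M) {i j : Fin k} (ij : i ≠ j)
  (ha : M ≤ cl Ω (a i))
include h ij ha

lemma b1 (hb : M ≤ cl Ω (b j)) : Eqv Ω a b := by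
  refine (others fun l => ha (h l)).trans ?_
  simpa using chg' (a := update b i (a i)) ij (z := b i) (by simpa [ij.symm] using hb (h i))

lemma b2 (hb : M ≤ cl Ω (b i)) (hc : M ≤ cl Ω (b j * a i)) : Eqv Ω a b := by
  refine (others fun l => ha (h l)).trans ?_
  refine (chg' (Ω := Ω) (a := update b i (a i)) ij.symm (z := b j * a i)
    (by simpa [ij.symm] using mem_cl _)).trans ?_
  refine (chg' (Ω := Ω) ij (z := b i) (by simpa [ij] using hc (h i))).trans ?_
  refine (chg' (Ω := Ω) ij.symm (z := b j) ?_).trans ?_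
  · have := mul_mem (hb (h i)) (inv_mem (mem_cl (Ω := Ω) (b i)))
    simpa [ij.symm] using this
  · rw [update_comm ij, update_idem, update_comm ij.symm, update_idem]
    simpa using .refl

end

def CC (A E : Subgroup G) [hE : E.Normal] : Subgroup G where
  carrier := {y | ∀ x ∈ A, ⁅x, y⁆ ∈ E}
  mul_mem' := fun {y z} p q x hx => by
    have := mul_mem (p x hx) (hE.conj_mem _ (q x hx) y)
    convert this using 1
    simp only [commutatorElement_def]
    group
  one_mem' := fun x _ => by simp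
  inv_mem' := fun {y} p x hx => by
    have := hE.conj_mem' _ (inv_mem (p x hx)) y
    convert this using 1
    simp only [commutatorElement_def]
    group

lemma nm_CC {A E : Subgroup G} [E.Normal] (hA : Nm Ω A) (hE : Nm Ω E) : Nm Ω (CC A E) := by
  refine ⟨⟨fun y p g x hx => ?_⟩, fun ω y p x hx => ?_⟩
  · have := hE.1.conj_mem _ (p _ (hA.1.conj_mem' _ hx g)) g
    convert this using 1
    simp only [commutatorElement_def]
    group
  · have := hE.2 ω _ (p _ (hA.2 ω⁻¹ _ hx))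
    simpa [commutatorElement_def, smul_mul'] using this

lemma nm_bot : Nm Ω (⊥ : Subgroup G) := ⟨inferInstance, fun ω h e => by simp [Subgroup.mem_bot.1 e]⟩
lemma nm_top : Nm Ω (⊤ : Subgroup G) := ⟨inferInstance, fun _ _ _ => trivial⟩

lemma self_CC (A : Subgroup G) {E : Subgroup G} [hE : E.Normal] {y : G} (hy : y ∈ E) :
    y ∈ CC A E := fun x _ => mul_mem (hE.conj_mem _ hy x) (inv_mem hy)

lemma bot_CC {A : Subgroup G} (E : Subgroup G) [E.Normal] : CC A ⊥ ≤ CC A E :=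
  fun _ p x hx => bot_le (a := E) (p x hx)

lemma comm_le {A E : Subgroup G} (hA : Nm Ω A) (hE : Nm Ω E) [E.Normal] {y : G}
    (hy : y ∈ CC A E) : ⁅A, cl Ω y⁆ ≤ E :=
  Subgroup.commutator_le.2 fun x hx _ hz => cl_le (nm_CC hA hE) hy hz x hx

lemma nm_comm {A B : Subgroup G} (hA : Nm Ω A) (hB : Nm Ω B) : Nm Ω ⁅A, B⁆ := by
  haveI := hA.1
  haveI := hB.1
  refine ⟨inferInstance, fun ω h hh => ?_⟩
  have : ⁅A, B⁆ ≤ ⁅A, B⁆.comap (MulDistribMulAction.toMonoidHom G ω) :=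
    Subgroup.commutator_le.2 fun x hx y hy => by
      rw [Subgroup.mem_comap, map_commutatorElement]
      exact Subgroup.commutator_mem_commutator (hA.2 ω _ hx) (hB.2 ω _ hy)
  exact this hh

lemma noncen (hk : 2 ≤ k) {M : Subgroup G} (hM : Minimal (fun H => Nm Ω H ∧ H ≠ ⊥) M)
    (hc : CC M ⊥ ≠ ⊤) {a b : Fin k → G} (ha : Gen Ω a) (hb : Gen Ω b)
    (h : ∀ l, (a l)⁻¹ * b l ∈ M) : Eqv Ω a b := by
  have n := nm_CC hM.1.1 (nm_bot (Ω := Ω))
  have key : ∀ g, g ∉ CC M ⊥ → M ≤ cl Ω g := fun g hg => by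
    haveI := hM.1.1.1
    haveI := (nm_cl (Ω := Ω) g).1
    refine (hM.2 ⟨nm_comm hM.1.1 (nm_cl g), fun e => hg fun x hx => ?_⟩
      (Subgroup.commutator_le_left _ _)).trans (Subgroup.commutator_le_right _ _)
    exact e ▸ Subgroup.commutator_mem_commutator hx (mem_cl g)
  obtain ⟨i, hi⟩ := not_forall.1 fun e => hc (ha _ n.1 n.2 e)
  obtain ⟨i', hi'⟩ := not_forall.1 fun e => hc (hb _ n.1 n.2 e)
  by_cases e : i = i'
  swap
  · exact b1 h e (key _ hi) (key _ hi')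
  subst e
  haveI : Nontrivial (Fin k) := Fin.nontrivial_iff_two_le.2 hk
  obtain ⟨j, ij⟩ := exists_ne i
  by_cases hj : b j ∈ CC M ⊥
  · exact b2 h ij.symm (key _ hi) (key _ hi') (key _ fun e => hi ((mul_mem_cancel_left hj).1 e))
  · exact b1 h ij.symm (key _ hi) (key _ hj)

lemma choice [Finite G] (hk : 2 ≤ k) {a : Fin k → G} (ha : Gen Ω a) (hG : commutator G ≠ ⊥) :
    ∃ M : Subgroup G, Nm Ω M ∧ M ≠ ⊥ ∧
      ∀ b, Gen Ω b → (∀ l, (a l)⁻¹ * b l ∈ M) → Eqv Ω a b := by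
  have gen : ∀ i j, ⁅cl Ω (a i), cl Ω (a j)⁆ ≠ ⊥ → (∀ (M : Subgroup G) (b : Fin k → G),
      M ≤ ⁅cl Ω (a i), cl Ω (a j)⁆ → (∀ (A : Subgroup G) l, (a l)⁻¹ * b l ∈ CC A ⊥) →
      (∀ l, (a l)⁻¹ * b l ∈ M) → Eqv Ω a b) → ∃ M : Subgroup G, Nm Ω M ∧ M ≠ ⊥ ∧
      ∀ b, Gen Ω b → (∀ l, (a l)⁻¹ * b l ∈ M) → Eqv Ω a b := fun i j e p => by
    obtain ⟨M, l, hM⟩ := exists_minimal_le_of_wellFoundedLT (fun H => Nm Ω H ∧ H ≠ ⊥) _
      ⟨nm_comm (nm_cl (a i)) (nm_cl (a j)), e⟩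
    refine ⟨M, hM.1.1, hM.1.2, fun b hb h => ?_⟩
    by_cases hc : CC M ⊥ = ⊤
    · refine p M b l (fun A l x _ => ?_) h
      have : x ∈ CC M ⊥ := hc ▸ trivial
      simpa using inv_mem (this _ (h l))
    · exact noncen hk hM hc ha hb h
  have hn : ∀ g : G, (cl Ω g).Normal := fun g => (nm_cl g).1
  have tr : ∀ (A : Subgroup G) (x y : G), x⁻¹ * y ∈ CC A ⊥ → x ∈ CC A (cl Ω y) := fun A x y p => by
    simpa using mul_mem (self_CC A (mem_cl (Ω := Ω) y)) (inv_mem (bot_CC _ p))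
  by_cases e : ∃ i j, i ≠ j ∧ ⁅cl Ω (a i), cl Ω (a j)⁆ ≠ ⊥
  · obtain ⟨i, j, ij, e⟩ := e
    exact gen i j e fun M b l c h => b1 h ij (l.trans (Subgroup.commutator_le_left _ _))
      (l.trans (comm_le (nm_cl _) (nm_cl _) (tr _ _ _ (c _ j))))
  push Not at e
  by_cases e' : ∃ i, ⁅cl Ω (a i), cl Ω (a i)⁆ ≠ ⊥
  · obtain ⟨i, e'⟩ := e'
    haveI : Nontrivial (Fin k) := Fin.nontrivial_iff_two_le.2 hk
    obtain ⟨j, ij⟩ := exists_ne i
    refine gen i i e' fun M b l c h => b2 h ij.symm (l.trans (Subgroup.commutator_le_left _ _))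
      (l.trans (comm_le (nm_cl _) (nm_cl _) (tr _ _ _ (c _ i))))
      (l.trans (comm_le (nm_cl _) (nm_cl _) ?_))
    have p : a j ∈ CC (cl Ω (a i)) ⊥ := fun x hx =>
      e i j ij.symm ▸ Subgroup.commutator_mem_commutator hx (mem_cl _)
    have q := mul_mem p (c _ j)
    simpa using mul_mem (inv_mem (bot_CC _ q)) (self_CC _ (mem_cl (Ω := Ω) (b j * a i)))
  push Not at e'
  refine absurd (eq_bot_iff.2 (Subgroup.commutator_le.2 fun x _ y _ => ?_)) hG
  have n := nm_CC (nm_top (G := G)) (nm_bot (Ω := Ω))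
  refine (ha _ n.1 n.2 fun i z _ => ?_).ge (Subgroup.mem_top y) x trivial
  have n := nm_CC (nm_cl (a i)) (nm_bot (Ω := Ω))
  have := (ha _ n.1 n.2 fun j z hz => ?_).ge (Subgroup.mem_top z) _ (mem_cl _)
  · simpa using inv_mem this
  · by_cases ij : i = j
    · exact e' i ▸ Subgroup.commutator_mem_commutator hz (ij ▸ mem_cl _)
    · exact e i j ij ▸ Subgroup.commutator_mem_commutator hz (mem_cl _)

lemma lift {H : Type} [Group H] [MulDistribMulAction Ω H] (φ : G →* H) (hφ : Surjective φ)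
    (he : ∀ (ω : Ω) g, φ (ω • g) = ω • φ g) {a : Fin k → G} {c : Fin k → H}
    (h : Eqv Ω (φ ∘ a) c) : ∃ b, Eqv Ω a b ∧ φ ∘ b = c := by
  induction h with
  | refl => exact ⟨a, .refl, rfl⟩
  | tail _ m ih =>
    obtain ⟨b, hb, rfl⟩ := ih
    rcases m with ⟨i, j, ij, rfl | rfl | rfl | rfl⟩ | ⟨i, rfl⟩ | ⟨i, g, rfl⟩ | ⟨i, ω, rfl⟩
    · exact ⟨_, hb.tail (.inl ⟨i, j, ij, .inl rfl⟩), by simp [comp_update]⟩
    · exact ⟨_, hb.tail (.inl ⟨i, j, ij, .inr (.inl rfl)⟩), by simp [comp_update]⟩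
    · exact ⟨_, hb.tail (.inl ⟨i, j, ij, .inr (.inr (.inl rfl))⟩), by simp [comp_update]⟩
    · exact ⟨_, hb.tail (.inl ⟨i, j, ij, .inr (.inr (.inr rfl))⟩), by simp [comp_update]⟩
    · exact ⟨_, hb.tail (.inr (.inl ⟨i, rfl⟩)), by simp [comp_update]⟩
    · obtain ⟨g, rfl⟩ := hφ g
      exact ⟨_, hb.tail (.inr (.inr (.inl ⟨i, g, rfl⟩))), by simp [comp_update]⟩
    · exact ⟨_, hb.tail (.inr (.inr (.inr ⟨i, ω, rfl⟩))), by simp [comp_update, he]⟩

@[reducible] def qact {M : Subgroup G} [M.Normal] (hM : Nm Ω M) : MulDistribMulAction Ω (G ⧸ M) where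
  smul ω := QuotientGroup.map M M (MulDistribMulAction.toMonoidHom G ω) fun _ h => hM.2 ω _ h
  one_smul x := QuotientGroup.induction_on x fun g => congrArg QuotientGroup.mk (one_smul Ω g)
  mul_smul ω τ x := QuotientGroup.induction_on x fun g => congrArg QuotientGroup.mk (mul_smul ω τ g)
  smul_mul ω :=
    map_mul (QuotientGroup.map M M (MulDistribMulAction.toMonoidHom G ω) fun _ h => hM.2 ω _ h)
  smul_one ω :=
    map_one (QuotientGroup.map M M (MulDistribMulAction.toMonoidHom G ω) fun _ h => hM.2 ω _ h)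

theorem main (hk : 2 ≤ k) (n : ℕ) : ∀ (G : Type) [Group G] [Finite G] [MulDistribMulAction Ω G],
    Nat.card G = n → ∀ U V : Fin k → G, Gen Ω U → Gen Ω V →
    (∀ i, (U i)⁻¹ * V i ∈ commutator G) → Eqv Ω U V := by
  induction n using Nat.strong_induction_on with
  | _ n ih =>
  intro G _ _ _ hn U V hU hV h
  by_cases hG : commutator G = ⊥
  · have : U = V := funext fun i => by simpa [hG, inv_mul_eq_one] using h i
    exact this ▸ .refl
  obtain ⟨M, hM, h0, p⟩ := choice hk hV hG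
  haveI := hM.1
  letI := qact hM
  have he : ∀ (ω : Ω) g, QuotientGroup.mk' M (ω • g) = ω • QuotientGroup.mk' M g := fun _ _ => rfl
  have sj := QuotientGroup.mk'_surjective M
  have gq : ∀ W : Fin k → G, Gen Ω W → Gen Ω (QuotientGroup.mk' M ∘ W) := fun W hW H a b c => by
    have := hW (H.comap (QuotientGroup.mk' M)) inferInstance (fun ω g hg => b ω _ hg) c
    exact Subgroup.comap_injective sj this
  have lt : Nat.card (G ⧸ M) < n := by
    rw [← hn, Subgroup.card_eq_card_quotient_mul_card_subgroup M]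
    exact lt_mul_of_one_lt_right Nat.card_pos ((Subgroup.one_lt_card_iff_ne_bot M).2 h0)
  obtain ⟨b, hb, e⟩ := lift _ sj he (ih _ lt (G ⧸ M) rfl _ _ (gq U hU) (gq V hV) fun i => by
    have := Subgroup.mem_map_of_mem (QuotientGroup.mk' M) (h i)
    rw [_root_.commutator_def, Subgroup.map_commutator] at this
    simpa using! Subgroup.commutator_mono le_top le_top this)
  exact hb.trans (p b (hb.gen hU) fun l => QuotientGroup.eq.1 (congrFun e l).symm).symm

def MvA (Ω : Type) [Group Ω] [MulDistribMulAction Ω G] (a b : Fin k → Abelianization G) : Prop :=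
  (∃ i j : Fin k, i ≠ j ∧
    (b = Function.update a i (a i * a j) ∨
     b = Function.update a i (a i * (a j)⁻¹) ∨
     b = Function.update a i (a j * a i) ∨
     b = Function.update a i ((a j)⁻¹ * a i))) ∨
  (∃ i : Fin k, b = Function.update a i (a i)⁻¹) ∨
  (∃ (i : Fin k) (ω : Ω) (g : G), Abelianization.of g = a i ∧
    b = Function.update a i (Abelianization.of (ω • g)))

lemma down {U V : Fin k → G} (h : Eqv Ω U V) :
    Relation.ReflTransGen (MvA Ω) (Abelianization.of ∘ U) (Abelianization.of ∘ V) := by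
  induction h with
  | refl => exact .refl
  | tail _ m ih =>
    rcases m with ⟨i, j, ij, rfl | rfl | rfl | rfl⟩ | ⟨i, rfl⟩ | ⟨i, g, rfl⟩ | ⟨i, ω, rfl⟩
    · exact ih.tail (.inl ⟨i, j, ij, .inl (by simp [comp_update])⟩)
    · exact ih.tail (.inl ⟨i, j, ij, .inr (.inl (by simp [comp_update]))⟩)
    · exact ih.tail (.inl ⟨i, j, ij, .inr (.inr (.inl (by simp [comp_update])))⟩)
    · exact ih.tail (.inl ⟨i, j, ij, .inr (.inr (.inr (by simp [comp_update])))⟩)
    · exact ih.tail (.inr (.inl ⟨i, by simp [comp_update]⟩))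
    · rw [comp_update, map_mul, map_mul, mul_right_comm, ← map_mul, inv_mul_cancel, map_one, one_mul]
      exact (update_eq_self i _).symm ▸ ih
    · exact ih.tail (.inr (.inr ⟨i, ω, _, rfl, by simp [comp_update]⟩))

lemma up {U : Fin k → G} {c : Fin k → Abelianization G}
    (h : Relation.ReflTransGen (MvA Ω) (Abelianization.of ∘ U) c) :
    ∃ b, Eqv Ω U b ∧ Abelianization.of ∘ b = c := by
  induction h with
  | refl => exact ⟨U, .refl, rfl⟩
  | tail _ m ih =>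
    obtain ⟨b, hb, rfl⟩ := ih
    rcases m with ⟨i, j, ij, rfl | rfl | rfl | rfl⟩ | ⟨i, rfl⟩ | ⟨i, ω, g, e, rfl⟩
    · exact ⟨_, hb.tail (.inl ⟨i, j, ij, .inl rfl⟩), by simp [comp_update]⟩
    · exact ⟨_, hb.tail (.inl ⟨i, j, ij, .inr (.inl rfl)⟩), by simp [comp_update]⟩
    · exact ⟨_, hb.tail (.inl ⟨i, j, ij, .inr (.inr (.inl rfl))⟩), by simp [comp_update]⟩
    · exact ⟨_, hb.tail (.inl ⟨i, j, ij, .inr (.inr (.inr rfl))⟩), by simp [comp_update]⟩
    · exact ⟨_, hb.tail (.inr (.inl ⟨i, rfl⟩)), by simp [comp_update]⟩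
    · refine ⟨_, hb.tail (.inr (.inr (.inr ⟨i, ω, rfl⟩))), ?_⟩
      rw [comp_update]
      congr 1
      exact (congrArg (Abelianization.map (MulDistribMulAction.toMonoidHom G ω)) e).symm

theorem final [Finite G] (hk : 2 ≤ k) {U V : Fin k → G} (hU : Gen Ω U) (hV : Gen Ω V) :
    Eqv Ω U V ↔
      Relation.ReflTransGen (MvA Ω) (Abelianization.of ∘ U) (Abelianization.of ∘ V) := by
  refine ⟨down, fun h => ?_⟩
  obtain ⟨b, hb, e⟩ := up h
  exact hb.trans (main hk _ G rfl b V (hb.gen hU) hV fun i => QuotientGroup.eq.1 (congrFun e i))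

end Pool.Agent.H.MP_a9e0e5_al
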